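import Pool.Agent.Helper31.MHS.Goals2
import Pool.Agent.Helper96.MH.MLM
import Pool.Agent.Helper81.Sus2.LSW
import Pool.Agent.Helper15.OHS.LSW

/-!
# Machines with several heads and descriptions: the systems are computed in linear space
-/

set_option linter.unusedSectionVars false

namespace Pool.Agent.Helper16.MHS

open Pool.Agent.Helper65.LinSpace Pool.Agent.Helper78.Mpc Pool.Agent.Helper28.Ram Finset
open Pool.Agent.Helper31.MHS
open Pool.Agent.Helper20.MH (Prm Sys PFM SLS)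
open Pool.Agent.Helper28.OHS (cellN intN binN)
open Pool.Agent.Helper54.OH (LS_tab LS_accN)
open Pool.Agent.Helper81.Sus2 (LSP)
open Pool.Agent.Helper96.MH
open Pool.Agent.Helper15.OHS (ls_binN cellN_bd)

variable {α β : Type} [Ctx α] [Ctx β]

theorem pfw_comp {P : α → WP} {C : α → ℕ} (h : PFW P C) {π : β → α} (hπ : LS π) :
    PFW (fun b => P (π b)) (fun b => C (π b)) where
  pm := pfm_comp h.pm hπ
  Z := LS.comp (g := fun z => (P z).Z) h.Z hπ
  eD := LS.comp (g := fun z => (P z).eD) h.eD hπ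
  eX := LS.comp (g := fun z => (P z).eX) h.eX hπ
  cb := LS.comp (g := fun z => (P z).cb) h.cb hπ
  E := LS.comp (g := fun z => (P z).E) h.E hπ
  G := LS.comp (g := fun z => (P z).G) h.G hπ
  d := LS.comp (g := fun z => (P z).d) h.d hπ
  E0 := fun z => h.E0 (π z)
  G0 := fun z => h.G0 (π z)
  bZ := fun z => h.bZ (π z)
  bN := fun z => h.bN (π z)
  hC1 := fun z => h.hC1 (π z)
  hC2 := fun z => h.hC2 (π z)
  hC3 := fun z => h.hC3 (π z)

section fam

variable {P : α → WP} {C : α → ℕ} (h : PFW P C)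
include h

theorem sa_le (z : α) : 2 ^ ((P z).sg + (P z).cb + (P z).m.c * ((P z).m.K * ((P z).m.S + 2))) ≤
    C z := by
  refine le_trans (Nat.pow_le_pow_right (by norm_num) ?_) (h.hC1 z)
  exact Nat.le_mul_of_pos_right _ (Nat.succ_pos _)

theorem bsc (z : α) : 2 ^ ((P z).sg + (P z).cb) ≤ C z :=
  le_trans (Nat.pow_le_pow_right (by norm_num) (by omega)) (sa_le h z)

theorem bsg (z : α) : 2 ^ (P z).sg ≤ C z :=
  le_trans (Nat.pow_le_pow_right (by norm_num) (by omega)) (sa_le h z)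

theorem bcb (z : α) : 2 ^ (P z).cb ≤ C z :=
  le_trans (Nat.pow_le_pow_right (by norm_num) (by omega)) (sa_le h z)

theorem l_sg : LS (fun z => (P z).sg) :=
  LS.add (LS.add h.pm.S (LS.const 1)) (LS.mul h.pm.κ (LS.mul h.pm.K h.pm.D))

theorem p_sg : LS (fun z => 2 ^ (P z).sg) :=
  LS.pow_of_le (f := fun _ => 2) (LS.const 2) (l_sg h) h.pm.bd (bsg h)

theorem p_cb : LS (fun z => 2 ^ (P z).cb) :=
  LS.pow_of_le (f := fun _ => 2) (LS.const 2) h.cb h.pm.bd (bcb h)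

theorem p_sc : LS (fun z => 2 ^ ((P z).sg + (P z).cb)) :=
  LS.pow_of_le (f := fun _ => 2) (LS.const 2) (LS.add (l_sg h) h.cb) h.pm.bd (bsc h)

theorem p_S2 : LS (fun z => 2 ^ ((P z).m.S + 2)) := by
  have h1 : LS (fun z => 2 ^ ((P z).m.S + 1) * 2) := LS.mul (pS h.pm) (LS.const 2)
  exact LS.congr h1 fun z => (pow_succ 2 ((P z).m.S + 1)).symm

theorem lsp_e : LSP (fun z => (P z).e) C := by
  have h4 : ∀ z, 2 ^ 2 ≤ C z := fun z =>
    (Nat.pow_le_pow_right (by norm_num) (by omega)).trans (h.bZ z)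
  exact ⟨LS.const 0, LS.const 0, LS.const 0, LS.const 0, LS.const 0, LS.const 0, h.eD, h.eX,
    LS.const 0, LS.const 0, LS.const 0, h.pm.hΛ, h.pm.hβ, h.pm.hB, h.pm.x, h.pm.y, LS.const 0,
    h.Z, LS.const 0, LS.const 0, LS.const 0, h.pm.bd, h.pm.b1, h.pm.b2, h4, h.bZ, h4,
    fun z => (Nat.pow_le_pow_right (by norm_num) (Nat.zero_le 2)).trans (h4 z), h4⟩

variable {c u v i x y r : α → ℕ}

theorem l_cs (hc : LS c) : LS (fun z => (P z).cs (c z)) := by
  have h1 : LS (fun p : α × ℕ => 2 ^ ((P p.1).m.κ - 1)) :=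
    LS.comp (g := fun z => 2 ^ ((P z).m.κ - 1)) (pκ' h.pm) LS.fst
  exact LS.ifz (LS.eq01 hc (LS.const 1)) (LS.mod (LS.sub hc (LS.const 2)) (p_sg h))
    (l_mk h.pm (u := fun z => capN (P z).m.S (P z).m.st) (c := fun z _ => 2 ^ ((P z).m.κ - 1))
      (LS.capN h.pm.S h.pm.st) h1
      (fun z k _ => Nat.pow_le_pow_right (by norm_num) (Nat.sub_le _ _)))

theorem l_cn (hc : LS c) (hx : LS x) : LS (fun z => (P z).cn (c z) (x z)) :=
  LS.capN h.pm.S (LS.ifz (LS.eq01 hc (LS.const 1))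
    (Pool.Agent.Helper81.Sus2H56.ls_lk (lsp_e h)
      (LS.div (LS.sub hc (LS.const 2)) (p_sg h)) hx) (LS.const 1))

theorem l_intN (hu : LS u) : LS (fun z => intN (P z).m.κ (u z)) := by
  unfold intN
  have h1 := pκ' h.pm
  exact LS.add (LS.le01 h1 hu) (LS.mul (LS.const 2)
    (ls_binN (LS.add (LS.sub hu h1) (LS.sub h1 hu))))

/-- Names of cells. -/
theorem l_cellN {u : α → ℕ → ℕ} (hu : LS (fun p : α × ℕ => u p.1 p.2))
    (hb : ∀ z k, u z k ≤ 2 ^ (P z).m.κ) :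
    LS (fun z => cellN (P z).m.κ (u z) (P z).m.D) := by
  unfold cellN
  have hc := pfw_comp h (π := fun p : α × ℕ × ℕ => p.1) LS.fst
  have h2 : LS (fun p : α × ℕ × ℕ => (p.1, p.2.1)) := by fun_prop
  have hu2 : LS (fun p : α × ℕ × ℕ => u p.1 p.2.1) :=
    LS.comp (g := fun p : α × ℕ => u p.1 p.2) hu h2
  have h3 : LS (fun p : α × ℕ × ℕ => p.2.2) := by fun_prop
  refine LS.nrec (G := fun _ => 1) (N := fun z => (P z).m.D)
    (K := fun z k v => catN v (sdN (intN (P z).m.κ (u z k)))) (C := fun z => C z * C z * C z)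
    (LS.const 1) h.pm.D (LS.mul (LS.mul h.pm.bd h.pm.bd) h.pm.bd)
    (LS.catN h3 (LS.sdN (l_intN hc hu2))) ?_
  intro z i hi
  exact cellN_bd _ _ _ _ (hb z) (h.bN z) i hi

theorem l_nm (hy : LS y) : LS (fun z => (P z).nm (y z)) := by
  have h1 := pfm_comp h.pm (π := fun p : α × ℕ => p.1) LS.fst
  have hK1 : LS (fun z => (P z).m.K + 1) := LS.add h.pm.K (LS.const 1)
  have hd : LS (fun z => y z / ((P z).m.K + 1)) := LS.div hy hK1
  have hd1 : LS (fun p : α × ℕ => y p.1 / ((P p.1).m.K + 1)) :=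
    LS.comp (g := fun z => y z / ((P z).m.K + 1)) hd LS.fst
  exact LS.catN (LS.sdN (LS.bitsN (LS.mod hy hK1)))
    (l_cellN h (u := fun z => dig (2 ^ (P z).m.κ) (y z / ((P z).m.K + 1)))
      (LS.dig (pκ h1) hd1 LS.snd) (fun z k => (dig_lt (by positivity) _ _).le))

theorem l_ini (hc : LS c) (hy : LS y) : LS (fun z => (P z).ini (c z) (y z)) :=
  l_cn h hc (l_nm h hy)

theorem l_ef (hc : LS c) (hy : LS y) (hr : LS r) : LS (fun z => (P z).ef (c z) (y z) (r z)) :=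
  LS.ifz hr (l_ini h hc hy) (LS.sub hr (LS.const 1))

theorem l_fl (hc : LS c) (hu : LS u) (hv : LS v) : LS (fun z => (P z).fl (c z) (u z) (v z)) := by
  have h1 := pfw_comp h (π := fun p : α × ℕ => p.1) LS.fst
  have hc1 : LS (fun p : α × ℕ => c p.1) := LS.comp (g := c) hc LS.fst
  have hu1 : LS (fun p : α × ℕ => u p.1) := LS.comp (g := u) hu LS.fst
  have hv1 : LS (fun p : α × ℕ => v p.1) := LS.comp (g := v) hv LS.fst
  have h2 : LS (fun p : α × ℕ => (P p.1).ef (c p.1) ((P p.1).m.cell (u p.1) p.2)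
      (dig (2 ^ ((P p.1).m.S + 2)) (v p.1) p.2)) :=
    l_ef h1 hc1 (l_cell h1.pm hu1 LS.snd) (LS.dig (p_S2 h1) hv1 LS.snd)
  refine LS_tab (q := fun z => 2 ^ ((P z).m.S + 1)) (m := fun z => (P z).m.K)
    (d := fun z k => (P z).ef (c z) ((P z).m.cell (u z) k)
      (dig (2 ^ ((P z).m.S + 2)) (v z) k)) (C := C)
    (B := fun z => 2 ^ ((P z).m.S + 2)) h2 (pS h.pm) h.pm.K h.pm.bd (p_S2 h)
    (fun z => by positivity) ?_ ?_
  · intro z k _
    have h3 : dig (2 ^ ((P z).m.S + 2)) (v z) k < 2 ^ ((P z).m.S + 2) :=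
      dig_lt (by positivity) _ _
    have h4 : (P z).ini (c z) ((P z).m.cell (u z) k) < 2 ^ ((P z).m.S + 1) := capN_lt _ _
    have h5 : 2 ^ ((P z).m.S + 1) ≤ 2 ^ ((P z).m.S + 2) :=
      Nat.pow_le_pow_right (by norm_num) (by omega)
    unfold WP.ef ifz
    split_ifs
    · exact h4.le.trans h5
    · omega
  · intro z
    rw [← pow_mul]
    exact (le_of_eq (by rw [Nat.mul_comm])).trans (bKS h.pm z)

theorem l_stp (hu : LS u) : LS (fun z => (P z).stp (u z)) :=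
  LS.add (LS.eq01 (LS.div hu (p_sg h)) (LS.const 0))
    (LS_accN (l_wq h.pm (LS.mod hu (p_sg h))))

theorem l_wN (hc : LS c) (hu : LS u) (hv : LS v) : LS (fun z => (P z).wN (c z) (u z) (v z)) := by
  have h1 : LS (fun z => u z % 2 ^ (P z).sg) := LS.mod hu (p_sg h)
  exact LS.mod (LS.ifz (l_stp h hu)
    (LS.add (l_fN h.pm h1 (l_fl h hc h1 hv))
      (LS.mul (p_sg h) (LS.sub (LS.div hu (p_sg h)) (LS.const 1)))) hu) (p_sc h)

theorem l_wW (hc : LS c) (hu : LS u) (hv : LS v) (hi : LS i) :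
    LS (fun z => (P z).wW (c z) (u z) (v z) (i z)) := by
  have h1 : LS (fun z => u z % 2 ^ (P z).sg) := LS.mod hu (p_sg h)
  exact LS.ifz (l_stp h hu) (LS.add (l_fW h.pm h1 (l_fl h hc h1 hv) hi) (LS.const 1))
    (LS.dig (p_S2 h) hv hi)

end fam

/-- The systems are computed in linear space. -/
theorem lsy (hW : WOK_stmt) : LSY_stmt := by
  intro α _ P C c τ h hc hτ
  have h2 := pfw_comp h (π := fun p : α × ℕ × ℕ => p.1) LS.fst
  have h1 := pfw_comp h (π := fun p : α × ℕ => p.1) LS.fst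
  have h3 := pfw_comp h (π := fun p : α × ℕ × ℕ × ℕ => p.1) LS.fst
  have ha2 : LS (fun p : α × ℕ × ℕ => p.2.1) := by fun_prop
  have hb2 : LS (fun p : α × ℕ × ℕ => p.2.2) := by fun_prop
  have ha3 : LS (fun p : α × ℕ × ℕ × ℕ => p.2.1) := by fun_prop
  have hb3 : LS (fun p : α × ℕ × ℕ × ℕ => p.2.2.1) := by fun_prop
  have hc3 : LS (fun p : α × ℕ × ℕ × ℕ => p.2.2.2) := by fun_prop
  have hk2 : LS (fun p : α × ℕ × ℕ => c p.1) := LS.comp (g := c) hc LS.fst
  have hk3 : LS (fun p : α × ℕ × ℕ × ℕ => c p.1) := LS.comp (g := c) hc LS.fst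
  exact
    { sg := LS.add (l_sg h) h.cb
      τ := LS.add h.pm.S (LS.const 2)
      K := h.pm.K
      J := LS.mul h.pm.K
        (LS.pow_of_le (LS.mul (LS.const 3) h.pm.c) h.pm.D h.pm.bd h.pm.b5)
      σ := LS.add (LS.mul h.pm.κ (KD h.pm)) (LS.const 1)
      c := h.pm.c
      R := h.pm.R
      u0 := LS.add (l_cs h hc) (LS.mul (p_sg h) (LS.mod hτ (p_cb h)))
      M0 := LS.const 0
      cell := l_cell h2.pm (LS.mod ha2 (p_sg h2)) hb2
      N := l_wN h2 hk2 ha2 hb2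
      W := l_wW h3 hk3 ha3 hb3 hc3
      B := l_fB h1.pm (LS.mod LS.snd (p_sg h1))
      nb := l_nb h2.pm ha2 hb2
      bd := h.pm.bd
      ok := fun z => (hW (P z) (c z) (τ z) (h.pm.b3 z) (h.pm.b4 z)).1
      hC1 := h.hC1
      hC2 := h.hC2
      hC3 := h.hC3 }

end Pool.Agent.Helper16.MHS
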